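import Pool.Agent.H61.CPT.Triangles

set_option autoImplicit false

namespace Pool.Agent.Results.MP_d2bbf8_co.FewTriangles

/-- Strong 4-colourability of a 2-regular graph that has at most seven triangles, or, more
generally, in which no set of blocks wholly contains two more cycles than it has blocks. -/
theorem result (V : Type) [Fintype V] [DecidableEq V] (G : SimpleGraph V) [DecidableRel G.Adj]
    (f : V → ℕ)
    (hdeg : ∀ v : V, G.degree v = 2)
    (hblock : ∀ v : V, (Finset.univ.filter (fun w : V => f w = f v)).card = 4)
    (hyp : (G.cliqueFinset 3).card ≤ 7 ∨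
      ∀ S : Finset ℕ, {D : G.ConnectedComponent | ∀ v ∈ D.supp, f v ∈ S}.ncard ≤ S.card + 1) :
    (G ⊔ SimpleGraph.fromRel (fun v w : V => f v = f w)).Colorable 4 :=
  Pool.Agent.H61.CPT.colorable_of G hdeg f hblock hyp

end Pool.Agent.Results.MP_d2bbf8_co.FewTriangles
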